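import Mathlib

namespace Pool.Agent.Results.MP_790317_an.Exists

open Set Filter Topology LinearPMap RealInnerProductSpace

abbrev K : Type := lp (fun _ : ℕ => ℝ) 2
abbrev H : Type := lp (fun _ : ℕ => K) 2

noncomputable def w : K := ⟨fun n => (1 / 2) ^ n, .of_exponent_ge (q := 1)
  (memℓp_gen (by simpa using summable_geometric_two)) (by norm_num)⟩

def lam (k : ℕ) : ℝ := if k = 0 then 0 else 2 ^ k

noncomputable def e (j k : ℕ) : H := lp.single 2 j (lp.single 2 k 1)

theorem ie (j k : ℕ) (x : H) : ⟪e j k, x⟫ = x j k := by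
  simp [e, lp.inner_single_left]

theorem ea (j k i l : ℕ) : e j k i l = if i = j ∧ l = k then 1 else 0 := by
  by_cases h : i = j
  · subst h; simp [e, lp.single_apply, Pi.single_apply]
  · simp [e, h]

theorem we (j k i : ℕ) : ⟪w, e j k i⟫ = if i = j then (1 / 2) ^ k else 0 := by
  by_cases h : i = j
  · subst h; simp [e, lp.inner_single_right, w]
  · simp [e, h]

theorem ct (j : ℕ) : Continuous fun x : H => x j := (lp.evalCLM ℝ (fun _ : ℕ => K) 2 j).continuous

theorem ct2 (j k : ℕ) : Continuous fun x : H => x j k :=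
  (lp.evalCLM ℝ (fun _ : ℕ => ℝ) 2 k).continuous.comp (ct j)

def G (s : ℝ) (b : Prop) : Submodule ℝ (H × H) where
  carrier := {p | (∀ j k, p.2 j k = s * lam k * p.1 j k) ∧
    (b → ∀ j : ℕ, ⟪w, p.2 j⟫ = s * (1 / (j + 1)) * p.1 j 0)}
  add_mem' := fun a b => ⟨fun j k => by simp [a.1, b.1, mul_add], fun h j => by
    simp [inner_add_right, a.2 h, b.2 h, mul_add]⟩
  zero_mem' := by simp
  smul_mem' := fun c _ a => ⟨fun j k => by simp [a.1]; ring, fun h j => by
    simp [inner_smul_right, a.2 h]; ring⟩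

theorem gr (s : ℝ) (b : Prop) : (G s b).toLinearPMap.graph = G s b :=
  (G s b).toLinearPMap_graph_eq fun x hx h => lp.ext (funext fun j => lp.ext (funext fun k => by
    simp [hx.1, h]))

theorem cl (s : ℝ) (b : Prop) : (G s b).toLinearPMap.IsClosed := by
  rw [LinearPMap.IsClosed, gr]
  refine IsClosed.and ?_ ?_ <;> simp only [ofPred_forall]
  · exact isClosed_iInter fun j => isClosed_iInter fun k => isClosed_eq
      ((ct2 j k).comp continuous_snd) (continuous_const.mul ((ct2 j k).comp continuous_fst))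
  · exact isClosed_iInter fun _ => isClosed_iInter fun j => isClosed_eq
      (continuous_const.inner ((ct j).comp continuous_snd))
      (continuous_const.mul ((ct2 j 0).comp continuous_fst))

theorem clo (s : ℝ) (b : Prop) : (G s b).toLinearPMap.closure = (G s b).toLinearPMap :=
  eq_of_eq_graph (by
    rw [← (cl s b).isClosable.graph_closure_eq_closure_graph]
    exact (cl s b).submodule_topologicalClosure_eq)

theorem m1 (s : ℝ) (b : Prop) (j : ℕ) : (e j 0 + (1 / (j + 1) : ℝ) • e j 1,
    (s * (2 / (j + 1))) • e j 1) ∈ G s b :=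
  ⟨fun i k => by
    simp only [lp.coeFn_add, lp.coeFn_smul, Pi.add_apply, Pi.smul_apply, ea, smul_eq_mul, lam]
    split_ifs <;> simp_all <;> ring, fun _ i => by
    simp only [lp.coeFn_add, lp.coeFn_smul, Pi.add_apply, Pi.smul_apply, ea, smul_eq_mul,
      inner_smul_right, we]
    split_ifs <;> simp_all; ring⟩

theorem m2 (s : ℝ) (b : Prop) (j k : ℕ) : (e j (k + 1) - e j 1,
    (s * 2 ^ (k + 1)) • e j (k + 1) - (s * 2) • e j 1) ∈ G s b :=
  ⟨fun i l => by
    simp only [lp.coeFn_sub, lp.coeFn_smul, Pi.sub_apply, Pi.smul_apply, ea, smul_eq_mul, lam]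
    split_ifs <;> simp_all, fun _ i => by
    simp only [lp.coeFn_sub, lp.coeFn_smul, Pi.sub_apply, Pi.smul_apply, ea, smul_eq_mul,
      inner_smul_right, we, inner_sub_right]
    split_ifs <;> simp_all⟩

theorem nc {E : Type*} [NormedAddCommGroup E] (z : lp (fun _ : ℕ => E) 2) :
    Tendsto (fun k => ‖z k‖) atTop (𝓝 0) := by
  have := ((lp.memℓp z).summable (by simp)).tendsto_atTop_zero.sqrt
  simpa using this

theorem dn (s : ℝ) (b : Prop) : Dense ((G s b).toLinearPMap.domain : Set H) := by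
  rw [Submodule.dense_iff_topologicalClosure_eq_top, Submodule.topologicalClosure_eq_top_iff,
    Submodule.eq_bot_iff]
  intro z hz
  have a : ∀ j k, z j (k + 1) = z j 1 := fun j k => by
    have := hz _ ⟨_, m2 s b j k, rfl⟩
    simpa [inner_sub_left, ie, sub_eq_zero] using this
  have c : ∀ j, z j 1 = 0 := fun j => by
    have := (tendsto_add_atTop_iff_nat 1).2 (nc (z j))
    simp only [a] at this
    exact norm_eq_zero.1 (tendsto_const_nhds_iff.1 this)
  refine lp.ext (funext fun j => lp.ext (funext fun k => ?_))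
  rcases k with _ | k
  · have := hz _ ⟨_, m1 s b j, rfl⟩
    simpa [inner_add_left, inner_smul_left, ie, c] using this
  · exact (a j k).trans (c j)

theorem adj (s : ℝ) (b : Prop) (y z : H) : (y, z) ∈ (-(G s b).toLinearPMap†).graph ↔
    ∀ u v, (u, v) ∈ G s b → ⟪v, y⟫ + ⟪u, z⟫ = 0 := by
  have : (y, z) ∈ (-(G s b).toLinearPMap†).graph ↔ (y, -z) ∈ ((G s b).toLinearPMap†).graph := by
    simp [mem_graph_iff, neg_eq_iff_eq_neg]
  rw [this, adjoint_graph_eq_graph_adjoint (dn s b), Submodule.mem_adjoint_iff, gr]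
  simp

theorem sk (s : ℝ) (b c : Prop) : (G s b).toLinearPMap ≤ -(G (-s) c).toLinearPMap† :=
  le_of_le_graph fun p hp => (adj _ _ p.1 p.2).2 fun u v h => by
    rw [gr] at hp
    rw [add_eq_zero_iff_eq_neg, lp.inner_eq_tsum, lp.inner_eq_tsum, ← tsum_neg]
    refine tsum_congr fun j => ?_
    rw [lp.inner_eq_tsum, lp.inner_eq_tsum, ← tsum_neg]
    refine tsum_congr fun k => ?_
    have := h.1 j k
    simp only [RCLike.inner_apply, conj_trivial, hp.1 j k] at this ⊢
    rw [this]; ring

theorem ncl (T : H →ₗ.[ℝ] H) (k l : ℕ) (c : ℝ) (hc : c ≠ 0) (h1 : ∀ j, e j k ∈ range T)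
    (h2 : ∀ x y, (x, y) ∈ T.graph → (∀ j : ℕ, y j = (1 / (j + 1) : ℝ) • lp.single 2 k 1) →
      ∀ j, x j l = c) : ¬ IsClosed (range T) := fun h => by
  let y : H := ⟨fun j => (1 / (j + 1) : ℝ) • lp.single 2 k 1, memℓp_gen (by
    simpa [norm_smul, lp.norm_single] using
      (summable_nat_add_iff 1).2 (Real.summable_one_div_nat_pow.2 one_lt_two))⟩
  obtain ⟨x, hx⟩ := mem_range_iff.1 (h.mem_of_tendsto (lp.hasSum_single (by simp) y)
    (.of_forall fun s => (LinearMap.range T.toFun).sum_mem fun j _ => by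
      have := (LinearMap.range T.toFun).smul_mem (1 / (j + 1) : ℝ) (h1 j)
      rwa [e, ← lp.single_smul] at this))
  refine (norm_pos_iff.2 hc).not_ge (ge_of_tendsto' (nc x) fun j => ?_)
  rw [← h2 x y hx (fun _ => rfl) j]
  exact lp.norm_apply_le_norm two_ne_zero _ _

def Ext {E : Type*} [NormedAddCommGroup E] [InnerProductSpace ℝ E] [CompleteSpace E]
    (A B : E →ₗ.[ℝ] E) : Prop :=
  ∃ T : E →ₗ.[ℝ] E, Dense (T.domain : Set E) ∧ T.IsClosed ∧ IsClosed (range T) ∧
    A.closure ≤ T ∧ B.closure ≤ -T†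

def Pair {E : Type*} [NormedAddCommGroup E] [InnerProductSpace ℝ E] [CompleteSpace E]
    (A B : E →ₗ.[ℝ] E) : Prop :=
  Dense (A.domain : Set E) ∧ Dense (B.domain : Set E) ∧ A ≤ -B† ∧ Ext A B ∧
    ¬ IsClosed (range A.closure) ∧ ¬ IsClosed (range (-B.closure†))

theorem result : ∃ A B : H →ₗ.[ℝ] H, Pair A B := by
  refine ⟨(G 1 True).toLinearPMap, (G (-1) True).toLinearPMap, dn _ _,
    dn _ _, sk _ _ _, ⟨(G 1 False).toLinearPMap, dn _ _, cl _ _, ?_, ?_, ?_⟩, ?_, ?_⟩
  · have : range (G 1 False).toLinearPMap = ⋂ j, {y | y j 0 = 0} := by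
      ext y
      simp only [mem_range_iff, gr, mem_iInter]
      refine ⟨fun ⟨x, h⟩ j => by simpa [lam] using h.1 j 0, fun h => ?_⟩
      have b : ∀ j k, ‖(lam k)⁻¹ * y j k‖ ≤ ‖y j k‖ := fun j k => by
        rw [norm_mul]
        refine mul_le_of_le_one_left (norm_nonneg _) ?_
        unfold lam
        split_ifs
        · simp
        · simpa using inv_le_one_of_one_le₀ (one_le_pow₀ (one_le_two (α := ℝ)))
      let x (j : ℕ) : K := ⟨fun k => (lam k)⁻¹ * y j k, (lp.memℓp (y j)).mono' (b j)⟩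
      refine ⟨⟨x, (lp.memℓp y).mono' fun j => lp.norm_mono two_ne_zero (b j)⟩, fun j k => ?_,
        False.elim⟩
      change y j k = 1 * lam k * ((lam k)⁻¹ * y j k)
      unfold lam
      split_ifs with hk
      · simpa [hk] using h j
      · field_simp
    rw [this]
    exact isClosed_iInter fun j => isClosed_eq (ct2 j 0) continuous_const
  · rw [clo]
    exact le_of_le_graph fun p hp => by rw [gr] at hp ⊢; exact ⟨hp.1, False.elim⟩
  · rw [clo]
    simpa using sk (-1) True False
  · rw [clo]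
    refine ncl _ 1 0 (1 / 2) (by norm_num) (fun j => mem_range_iff.2 ?_) fun x y h hy j => ?_
    · have := (G 1 True).smul_mem ((j + 1) / 2 : ℝ) (m1 1 True j)
      rw [Prod.smul_mk, smul_smul, show ((j + 1) / 2 * (1 * (2 / (j + 1))) : ℝ) = 1 by field_simp,
        one_smul, ← gr] at this
      exact ⟨_, this⟩
    · rw [gr] at h
      have := h.2 trivial j
      simp only [hy, inner_smul_right, lp.inner_single_right, w, one_mul] at this
      rw [mul_right_inj' (by positivity)] at this
      simpa using this.symm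
  · rw [clo]
    refine ncl _ 0 1 (1 / 2) (by norm_num) (fun j => mem_range_iff.2
      ⟨(j + 1 : ℝ) • lp.single 2 j w, (adj _ _ _ _).2 fun u v h => ?_⟩) fun x y h hy j => ?_
    · have := h.2 trivial j
      rw [inner_smul_right, lp.inner_single_right, real_inner_comm, real_inner_comm (e j 0), ie,
        this]
      field_simp; ring
    · have := (adj _ _ _ _).1 h _ _ (m1 (-1) True j)
      simp only [inner_add_left, inner_smul_left, ie, hy, conj_trivial, lp.coeFn_smul, Pi.smul_apply,
        lp.single_apply_self, lp.single_apply_ne _ _ _ one_ne_zero, smul_eq_mul] at this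
      field_simp at this
      exact mul_left_cancel₀ (show (j + 1 : ℝ) ≠ 0 by positivity) (by linarith)

end Pool.Agent.Results.MP_790317_an.Exists
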